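import Mathlib

/-!
The Zeckendorf game: the priority game is a longest game.

A position is the finite multiset of the indices `i ≥ 1` of its terms `F i`
(`F 1 = 1`, `F 2 = 2`, `F (i+1) = F i + F (i-1)`).
-/

namespace Pool.Agent.ZeckGame

/-- One move of the Zeckendorf game, on the multiset of indices. -/
inductive Step : Multiset ℕ → Multiset ℕ → Prop
  | merge (i : ℕ) (hi : 2 ≤ i) (s : Multiset ℕ) : Step ({i - 1, i} + s) ({i + 1} + s)
  | ones (s : Multiset ℕ) : Step ({1, 1} + s) ({2} + s)
  | split2 (s : Multiset ℕ) : Step ({2, 2} + s) ({1, 3} + s)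
  | split (i : ℕ) (hi : 3 ≤ i) (s : Multiset ℕ) : Step ({i, i} + s) ({i - 2, i + 1} + s)

/-- One move of the priority game: ones first, then the split of smallest index, then the merge
of smallest index. -/
inductive PStep : Multiset ℕ → Multiset ℕ → Prop
  | ones (s : Multiset ℕ) : PStep ({1, 1} + s) ({2} + s)
  | split2 (s : Multiset ℕ) (h : Multiset.count 1 ({2, 2} + s) ≤ 1) :
      PStep ({2, 2} + s) ({1, 3} + s)
  | split (i : ℕ) (hi : 3 ≤ i) (s : Multiset ℕ)
      (h : ∀ j, 1 ≤ j → j < i → Multiset.count j ({i, i} + s) ≤ 1) :
      PStep ({i, i} + s) ({i - 2, i + 1} + s)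
  | merge (i : ℕ) (hi : 2 ≤ i) (s : Multiset ℕ)
      (h : ∀ j, 1 ≤ j → Multiset.count j ({i - 1, i} + s) ≤ 1)
      (h' : ∀ j, 2 ≤ j → j < i → ¬ (j - 1 ∈ ({i - 1, i} + s : Multiset ℕ) ∧
        j ∈ ({i - 1, i} + s : Multiset ℕ))) :
      PStep ({i - 1, i} + s) ({i + 1} + s)

/-- `Play R k s t`: `k` moves of type `R` lead from `s` to `t`. -/
inductive Play (R : Multiset ℕ → Multiset ℕ → Prop) : ℕ → Multiset ℕ → Multiset ℕ → Prop
  | nil (s : Multiset ℕ) : Play R 0 s s
  | cons (k : ℕ) (s t u : Multiset ℕ) (h : R s t) (h' : Play R k t u) : Play R (k + 1) s u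

/-- A position without a legal move. -/
def Terminal (s : Multiset ℕ) : Prop := ∀ t, ¬ Step s t

/-- `k` is the length of a game from `s`, played to a position without legal move, all of whose
moves are of type `R`. -/
def IsLength (R : Multiset ℕ → Multiset ℕ → Prop) (s : Multiset ℕ) (k : ℕ) : Prop :=
  ∃ t, Play R k s t ∧ Terminal t

/-! ### The maximal length -/

/-- potential of a token -/
def w (i : ℕ) : ℕ := 2 * i + 2 + (if i = 2 then 1 else 0)

/-- potential -/
def mu (s : Multiset ℕ) : ℕ := (s.map w).sum

lemma mu_add (s t : Multiset ℕ) : mu (s + t) = mu s + mu t := by simp [mu]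

lemma mu_pair (i j : ℕ) : mu {i, j} = w i + w j := by simp [mu]

lemma mu_single (i : ℕ) : mu {i} = w i := by simp [mu]

lemma mu_step {s t : Multiset ℕ} (h : Step s t) : mu t + 1 ≤ mu s := by
  cases h with
  | merge i hi r =>
    simp only [mu_add, mu_pair, mu_single, w]
    split_ifs <;> omega
  | ones r =>
    simp only [mu_add, mu_pair, mu_single, w]
    split_ifs <;> omega
  | split2 r =>
    simp only [mu_add, mu_pair, w]
    split_ifs <;> omega
  | split i hi r =>
    simp only [mu_add, mu_pair, w]
    split_ifs <;> omega

lemma play_le {k : ℕ} {s t : Multiset ℕ} (h : Play Step k s t) : k ≤ mu s := by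
  induction h with
  | nil s => exact Nat.zero_le _
  | cons k s t u h h' ih => have := mu_step h; omega

/-- the maximal length of a play from `s` -/
noncomputable def L (s : Multiset ℕ) : ℕ := sSup {k | ∃ t, Play Step k s t}

lemma bdd (s : Multiset ℕ) : BddAbove {k | ∃ t, Play Step k s t} :=
  ⟨mu s, fun _ ⟨_, h⟩ => play_le h⟩

lemma le_L {k : ℕ} {s t : Multiset ℕ} (h : Play Step k s t) : k ≤ L s :=
  le_csSup (bdd s) ⟨t, h⟩

lemma L_mem (s : Multiset ℕ) : ∃ t, Play Step (L s) s t := by
  have h : L s ∈ {k | ∃ t, Play Step k s t} := by
    apply Nat.sSup_mem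
    · exact ⟨0, s, Play.nil s⟩
    · exact bdd s
  exact h

lemma L_step {s t : Multiset ℕ} (h : Step s t) : L t + 1 ≤ L s := by
  obtain ⟨u, hu⟩ := L_mem t
  exact le_L (Play.cons _ _ _ _ h hu)

lemma L_exists {s : Multiset ℕ} (h : ¬ Terminal s) : ∃ t, Step s t ∧ L s = L t + 1 := by
  obtain ⟨u, hu⟩ := L_mem s
  have hpos : 1 ≤ L s := by
    simp only [Terminal, not_forall, not_not] at h
    obtain ⟨t, ht⟩ := h
    have := L_step ht
    omega
  cases hu' : L s with
  | zero => omega
  | succ k =>
    rw [hu'] at hu
    cases hu with
    | cons _ _ t _ h1 h2 =>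
      refine ⟨t, h1, ?_⟩
      have h3 := le_L h2
      have h4 := L_step h1
      omega

lemma L_terminal {s : Multiset ℕ} (h : Terminal s) : L s = 0 := by
  obtain ⟨u, hu⟩ := L_mem s
  cases hu' : L s with
  | zero => rfl
  | succ k =>
    rw [hu'] at hu
    cases hu with
    | cons _ _ t _ h1 h2 => exact absurd h1 (h t)

/-! ### Splits first -/

/-- result of the move `i, i →` -/
def out (i : ℕ) : Multiset ℕ :=
  if i = 1 then {2} else if i = 2 then {1, 3} else {i - 2, i + 1}

lemma step_out {i : ℕ} (hi : 1 ≤ i) (s : Multiset ℕ) : Step ({i, i} + s) (out i + s) := by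
  unfold out
  split_ifs with h1 h2
  · subst h1; exact Step.ones s
  · subst h2; exact Step.split2 s
  · exact Step.split i (by omega) s

lemma common {A B r q : Multiset ℕ} (h : A + r = B + q) (hd : ∀ x ∈ A, x ∉ B) :
    ∃ p, r = B + p ∧ q = A + p := by
  have hB : B ≤ r := by
    rw [Multiset.le_iff_count]
    intro x
    by_cases hx : x ∈ B
    · have hxA : x ∉ A := fun hA => hd x hA hx
      have h1 : Multiset.count x (A + r) = Multiset.count x (B + q) := by rw [h]
      rw [Multiset.count_add, Multiset.count_add, Multiset.count_eq_zero_of_notMem hxA] at h1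
      omega
    · rw [Multiset.count_eq_zero_of_notMem hx]; exact Nat.zero_le _
  obtain ⟨p, hp⟩ := Multiset.le_iff_exists_add.1 hB
  refine ⟨p, hp, ?_⟩
  rw [hp] at h
  have : B + q = B + (A + p) := by rw [← h]; abel
  exact add_left_cancel this

/-- all moves as one family: `S i` and merges -/
lemma step_cases {s t : Multiset ℕ} (h : Step s t) :
    (∃ i r, 1 ≤ i ∧ s = {i, i} + r ∧ t = out i + r) ∨
    (∃ i r, 2 ≤ i ∧ s = {i - 1, i} + r ∧ t = {i + 1} + r) := by
  cases h with
  | merge i hi r => exact Or.inr ⟨i, r, hi, rfl, rfl⟩
  | ones r => exact Or.inl ⟨1, r, le_refl _, rfl, by simp [out]⟩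
  | split2 r => exact Or.inl ⟨2, r, by omega, rfl, by simp [out]⟩
  | split i hi r =>
    refine Or.inl ⟨i, r, by omega, rfl, ?_⟩
    unfold out
    rw [if_neg (by omega), if_neg (by omega)]

/-- `i, i, i-1 → i+1, i` through `S i` -/
lemma path_merge {i : ℕ} (hi : 2 ≤ i) (p : Multiset ℕ) :
    Step (out i + ({i - 1} + p)) ({i} + ({i + 1} + p)) := by
  unfold out
  rw [if_neg (by omega)]
  by_cases h2 : i = 2
  · subst h2
    simp only [if_true]
    have := Step.ones ({3} + p)
    convert this using 1
    · show ({1, 3} : Multiset ℕ) + ({1} + p) = {1, 1} + ({3} + p)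
      simp only [Multiset.insert_eq_cons, ← Multiset.singleton_add]
      abel
  · rw [if_neg h2]
    have := Step.merge (i - 1) (by omega) ({i + 1} + p)
    convert this using 1
    · have : i - 1 - 1 = i - 2 := by omega
      rw [this]
      simp only [Multiset.insert_eq_cons, ← Multiset.singleton_add]
      abel
    · have : i - 1 + 1 = i := by omega
      rw [this]

/-- Splits (and ones) first. -/
theorem splitFirst : ∀ (m : ℕ) (s r : Multiset ℕ) (i : ℕ), mu s ≤ m → 1 ≤ i → s = {i, i} + r →
    L s = L (out i + r) + 1 := by
  intro m
  induction m with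
  | zero =>
    intro s r i hm hi hs
    have h := mu_step (step_out hi r)
    rw [← hs] at h
    omega
  | succ m ih =>
    intro s r i hm hi hs
    have hstep : Step s (out i + r) := by rw [hs]; exact step_out hi r
    have hle := L_step hstep
    refine le_antisymm ?_ hle
    obtain ⟨t, ht, hL⟩ := L_exists (s := s) (fun h => h _ hstep)
    have hmu := mu_step ht
    rcases step_cases ht with ⟨j, q, hj, hs', ht'⟩ | ⟨j, q, hj, hs', ht'⟩
    · by_cases hij : i = j
      · subst hij
        have : r = q := by
          rw [hs] at hs'; exact add_left_cancel hs'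
        subst this
        rw [hL, ht']
      · obtain ⟨p, hr, hq⟩ := common (A := {i, i}) (B := {j, j}) (hs.symm.trans hs')
          (by intro x hx; simp at hx; subst hx; simp [hij])
        have ht2 : t = {i, i} + (out j + p) := by rw [ht', hq]; abel
        have h1 := ih t (out j + p) i (by omega) hi ht2
        have h2 : Step (out i + r) (out i + (out j + p)) := by
          have := step_out hj (out i + p)
          rw [hr]
          convert this using 1
          · abel
          · abel
        have h3 := L_step h2
        omega
    · by_cases hij : i = j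
      · subst hij
        -- the merge `i-1, i`
        have h' : ({i} : Multiset ℕ) + r = {i - 1} + q := by
          have : ({i} : Multiset ℕ) + (({i} : Multiset ℕ) + r) = {i} + ({i - 1} + q) := by
            have h0 := hs.symm.trans hs'
            simp only [Multiset.insert_eq_cons, ← Multiset.singleton_add] at h0
            calc ({i} : Multiset ℕ) + (({i} : Multiset ℕ) + r) = {i} + {i} + r := by abel
              _ = {i - 1} + {i} + q := h0
              _ = {i} + ({i - 1} + q) := by abel
          exact add_left_cancel this
        obtain ⟨p, hr, hq⟩ := common h' (by intro x hx; simp at hx; subst hx; simp; omega)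
        have h2 : Step (out i + r) t := by
          have := path_merge hj p
          rw [hr, ht', hq]
          convert this using 1
          abel
        have h3 := L_step h2
        omega
      · by_cases hij' : i = j - 1
        · -- the merge `i, i+1`
          have hj' : j = i + 1 := by omega
          subst hj'
          have e1 : i + 1 - 1 = i := by omega
          rw [e1] at hs'
          have h' : ({i} : Multiset ℕ) + r = {i + 1} + q := by
            have : ({i} : Multiset ℕ) + (({i} : Multiset ℕ) + r) = {i} + ({i + 1} + q) := by
              have h0 := hs.symm.trans hs'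
              simp only [Multiset.insert_eq_cons, ← Multiset.singleton_add] at h0
              calc ({i} : Multiset ℕ) + (({i} : Multiset ℕ) + r) = {i} + {i} + r := by abel
                _ = {i} + {i + 1} + q := h0
                _ = {i} + ({i + 1} + q) := by abel
            exact add_left_cancel this
          obtain ⟨p, hr, hq⟩ := common h' (by intro x hx; simp at hx; subst hx; simp)
          -- t = {i+2} + {i} + p
          by_cases hi1 : i = 1
          · subst hi1
            have h2 : Step (out 1 + r) t := by
              have := Step.split2 p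
              rw [hr, ht', hq]
              simp only [out, if_true]
              convert this using 1
              · simp only [Multiset.insert_eq_cons, ← Multiset.singleton_add]
                abel
              · simp only [Multiset.insert_eq_cons, ← Multiset.singleton_add]
                abel
            have h3 := L_step h2
            omega
          · -- out i + {i+1} + p → ... has (i+1) twice
            have hi2 : 2 ≤ i := by omega
            -- decompose out i = {i+1} + {c}, c = i-2 or 1
            obtain ⟨c, hc, hc1⟩ : ∃ c, out i = {i + 1} + {c} ∧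
                Step (({i - 1} : Multiset ℕ) + ({c} + ({i + 2} + p))) ({i} + ({i + 2} + p)) := by
              by_cases h2 : i = 2
              · subst h2
                refine ⟨1, ?_, ?_⟩
                · simp only [out]
                  simp only [Multiset.insert_eq_cons, ← Multiset.singleton_add]
                  simp only [show (2:ℕ) = 1 ↔ False by simp, if_false, if_true]
                  abel
                · have := Step.ones ({4} + p)
                  convert this using 1
                  simp only [Multiset.insert_eq_cons, ← Multiset.singleton_add]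
                  abel
              · refine ⟨i - 2, ?_, ?_⟩
                · unfold out
                  rw [if_neg hi1, if_neg h2]
                  simp only [Multiset.insert_eq_cons, ← Multiset.singleton_add]
                  abel
                · have := Step.merge (i - 1) (by omega) ({i + 2} + p)
                  have e2 : i - 1 - 1 = i - 2 := by omega
                  have e3 : i - 1 + 1 = i := by omega
                  rw [e2, e3] at this
                  convert this using 1
                  simp only [Multiset.insert_eq_cons, ← Multiset.singleton_add]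
                  abel
            have s1 : Step (out i + r) (({i - 1} : Multiset ℕ) + ({c} + ({i + 2} + p))) := by
              have := Step.split (i + 1) (by omega) ({c} + p)
              have e2 : i + 1 - 2 = i - 1 := by omega
              rw [e2] at this
              rw [hr, hc]
              convert this using 1
              · simp only [Multiset.insert_eq_cons, ← Multiset.singleton_add]
                abel
              · simp only [Multiset.insert_eq_cons, ← Multiset.singleton_add]
                abel
            have h3 := L_step s1
            have h4 := L_step hc1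
            have h5 : t = {i} + ({i + 2} + p) := by
              rw [ht', hq]; abel
            rw [h5] at hL
            omega
        · obtain ⟨p, hr, hq⟩ := common (A := {i, i}) (B := {j - 1, j}) (hs.symm.trans hs')
            (by intro x hx; simp at hx; subst hx; simp; omega)
          have ht2 : t = {i, i} + ({j + 1} + p) := by rw [ht', hq]; abel
          have h1 := ih t ({j + 1} + p) i (by omega) hi ht2
          have h2 : Step (out i + r) (out i + ({j + 1} + p)) := by
            have := Step.merge j hj (out i + p)
            rw [hr]
            convert this using 1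
            · abel
            · abel
          have h3 := L_step h2
          omega

lemma L_split {i : ℕ} (hi : 1 ≤ i) (r : Multiset ℕ) : L ({i, i} + r) = L (out i + r) + 1 :=
  splitFirst _ _ r i (le_refl _) hi rfl

/-- Lemma C: merging one place lower gains one move. -/
lemma L_shift {j : ℕ} (hj : 2 ≤ j) (p : Multiset ℕ) :
    L ({j + 1} + ({j + 1} + p)) = L ({j - 1} + ({j + 2} + p)) + 1 := by
  have h := L_split (i := j + 1) (by omega) p
  have e : out (j + 1) = {j - 1, j + 2} := by
    unfold out
    rw [if_neg (by omega), if_neg (by omega)]
    rfl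
  rw [e] at h
  convert h using 2
  · simp only [Multiset.insert_eq_cons, ← Multiset.singleton_add]
    abel
  · congr 1
    simp only [Multiset.insert_eq_cons, ← Multiset.singleton_add]
    abel

/-! ### Positions without repetition: smallest merge first -/

lemma step_merge {i : ℕ} (hi : 2 ≤ i) (r : Multiset ℕ) : Step ({i - 1} + ({i} + r)) ({i + 1} + r) := by
  have := Step.merge i hi r
  convert this using 1
  simp only [Multiset.insert_eq_cons, ← Multiset.singleton_add]
  abel

/-- no repetition, and no pair of consecutive indices `j - 1, j` with `j < i` -/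
def Good (i : ℕ) (s : Multiset ℕ) : Prop :=
  s.Nodup ∧ ∀ j, 2 ≤ j → j < i → ¬ (j - 1 ∈ s ∧ j ∈ s)

lemma higher (i : ℕ) (hi : 2 ≤ i) (n : ℕ) (s : Multiset ℕ) (hs : Good i s)
    (hn : Multiset.card s = n + 2)
    (IH : ∀ r : Multiset ℕ, Multiset.card r < n → Good i ({i - 1} + ({i} + r)) →
      L ({i - 1} + ({i} + r)) = L ({i + 1} + r) + 1) :
    ∀ (d j : ℕ) (p : Multiset ℕ), i + 2 ≤ j → s = {i - 1} + ({i} + ({j - 1} + ({j} + p))) →
      s.sum - j ≤ d →
      L ({i - 1} + ({i} + ({j + 1} + p))) = L ({i + 1} + ({j + 1} + p)) + 1 := by
  intro d
  induction d with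
  | zero =>
    intro j p hj hsp hd
    by_cases hjp : j + 1 ∈ p
    · have h1 : j + 1 ∈ s := by rw [hsp]; simp [hjp]
      have h2 := Multiset.le_sum_of_mem h1
      omega
    · apply IH
      · have h1 : Multiset.card s = Multiset.card p + 4 := by
          rw [hsp]; simp
        have h2 : Multiset.card ({j + 1} + p) = Multiset.card p + 1 := by simp
        omega
      · refine ⟨?_, ?_⟩
        · have h1 := hs.1
          rw [hsp] at h1
          simp only [Multiset.singleton_add, Multiset.nodup_cons, Multiset.mem_cons, not_or] at h1 ⊢
          obtain ⟨⟨a1, a2, a3, a4⟩, ⟨b1, b2, b3⟩, ⟨c1, c2⟩, d1, e1⟩ := h1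
          refine ⟨⟨a1, by omega, a4⟩, ⟨by omega, b3⟩, hjp, e1⟩
        · intro k hk1 hk2 hk3
          apply hs.2 k hk1 hk2
          rw [hsp]
          simp only [Multiset.singleton_add, Multiset.mem_cons] at hk3 ⊢
          obtain ⟨h3, h4⟩ := hk3
          constructor
          · rcases h3 with h3 | h3 | h3 | h3
            · omega
            · omega
            · omega
            · simp [h3]
          · rcases h4 with h4 | h4 | h4 | h4
            · omega
            · omega
            · omega
            · simp [h4]
  | succ d ih =>
    intro j p hj hsp hd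
    by_cases hjp : j + 1 ∈ p
    · obtain ⟨p', hp'⟩ := Multiset.exists_cons_of_mem hjp
      rw [← Multiset.singleton_add] at hp'
      have h1 : j + 1 ∈ s := by rw [hsp]; simp [hjp]
      have h2 := Multiset.le_sum_of_mem h1
      have h3 := ih (j + 1) ({j - 1} + p') (by omega) (by
        rw [hsp, hp']
        have : j + 1 - 1 = j := by omega
        rw [this]
        abel) (by omega)
      have h4 := L_shift (j := j) (by omega) ({i - 1} + ({i} + p'))
      have h5 := L_shift (j := j) (by omega) ({i + 1} + p')
      have e1 : ({i - 1} : Multiset ℕ) + ({i} + ({j + 1} + p)) =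
          {j + 1} + ({j + 1} + ({i - 1} + ({i} + p'))) := by rw [hp']; abel
      have e2 : ({j - 1} : Multiset ℕ) + ({j + 2} + ({i - 1} + ({i} + p'))) =
          {i - 1} + ({i} + ({j + 1 + 1} + ({j - 1} + p'))) := by abel
      have e3 : ({i + 1} : Multiset ℕ) + ({j + 1} + p) =
          {j + 1} + ({j + 1} + ({i + 1} + p')) := by rw [hp']; abel
      have e4 : ({j - 1} : Multiset ℕ) + ({j + 2} + ({i + 1} + p')) =
          {i + 1} + ({j + 1 + 1} + ({j - 1} + p')) := by abel
      rw [e1, e3, h4, h5, e2, e4, h3]
    · apply IH
      · have h1 : Multiset.card s = Multiset.card p + 4 := by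
          rw [hsp]; simp
        have h2 : Multiset.card ({j + 1} + p) = Multiset.card p + 1 := by simp
        omega
      · refine ⟨?_, ?_⟩
        · have h1 := hs.1
          rw [hsp] at h1
          simp only [Multiset.singleton_add, Multiset.nodup_cons, Multiset.mem_cons, not_or] at h1 ⊢
          obtain ⟨⟨a1, a2, a3, a4⟩, ⟨b1, b2, b3⟩, ⟨c1, c2⟩, d1, e1⟩ := h1
          refine ⟨⟨a1, by omega, a4⟩, ⟨by omega, b3⟩, hjp, e1⟩
        · intro k hk1 hk2 hk3
          apply hs.2 k hk1 hk2
          rw [hsp]
          simp only [Multiset.singleton_add, Multiset.mem_cons] at hk3 ⊢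
          obtain ⟨h3, h4⟩ := hk3
          constructor
          · rcases h3 with h3 | h3 | h3 | h3
            · omega
            · omega
            · omega
            · simp [h3]
          · rcases h4 with h4 | h4 | h4 | h4
            · omega
            · omega
            · omega
            · simp [h4]

/-- Smallest merge first. -/
theorem mergeFirst (i : ℕ) (hi : 2 ≤ i) : ∀ (n : ℕ) (r : Multiset ℕ), Multiset.card r = n →
    Good i ({i - 1} + ({i} + r)) → L ({i - 1} + ({i} + r)) = L ({i + 1} + r) + 1 := by
  intro n
  induction n using Nat.strong_induction_on with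
  | _ n IH =>
    intro r hr hg
    have hst := step_merge hi r
    refine le_antisymm ?_ (L_step hst)
    obtain ⟨t, ht, hL⟩ := L_exists (s := {i - 1} + ({i} + r)) (fun h => h _ hst)
    rcases step_cases ht with ⟨j, q, hj, hs', ht'⟩ | ⟨j, q, hj, hs', ht'⟩
    · exfalso
      have h1 := hg.1
      rw [hs'] at h1
      simp [Multiset.insert_eq_cons] at h1
    · have hmem1 : j - 1 ∈ ({i - 1} + ({i} + r) : Multiset ℕ) := by
        rw [hs']; simp
      have hmem2 : j ∈ ({i - 1} + ({i} + r) : Multiset ℕ) := by
        rw [hs']; simp
      have hij : i ≤ j := by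
        by_contra hlt
        exact hg.2 j hj (by omega) ⟨hmem1, hmem2⟩
      have hpair : ({i - 1, i} : Multiset ℕ) + r = {j - 1, j} + q := by
        rw [← hs']
        simp only [Multiset.insert_eq_cons, ← Multiset.singleton_add]
        abel
      rcases Nat.lt_or_ge i j with hlt | hge
      · rcases Nat.lt_or_ge (i + 1) j with hlt2 | hge2
        · obtain ⟨p, hr', hq'⟩ := common (A := {i - 1, i}) (B := {j - 1, j}) hpair
            (by intro x hx; simp at hx ⊢; omega)
          have hs2 : ({i - 1} + ({i} + r) : Multiset ℕ) =
              {i - 1} + ({i} + ({j - 1} + ({j} + p))) := by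
            rw [hr']
            simp only [Multiset.insert_eq_cons, ← Multiset.singleton_add]
            abel
          have h1 := higher i hi n _ hg (by simp [hr]) (fun r' h1 h2 => IH _ h1 r' rfl h2)
            (({i - 1} + ({i} + r) : Multiset ℕ).sum) j p (by omega) hs2 (by omega)
          have h2 : Step ({i + 1} + r) ({i + 1} + ({j + 1} + p)) := by
            have := Step.merge j hj ({i + 1} + p)
            rw [hr']
            convert this using 1
            · abel
            · abel
          have h3 := L_step h2
          have h4 : t = {i - 1} + ({i} + ({j + 1} + p)) := by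
            rw [ht', hq']
            simp only [Multiset.insert_eq_cons, ← Multiset.singleton_add]
            abel
          rw [h4] at hL
          omega
        · have hj' : j = i + 1 := by omega
          subst hj'
          have e1 : i + 1 - 1 = i := by omega
          rw [e1] at hpair
          have h' : ({i - 1} : Multiset ℕ) + r = {i + 1} + q := by
            have : ({i} : Multiset ℕ) + (({i - 1} : Multiset ℕ) + r) = {i} + ({i + 1} + q) := by
              simp only [Multiset.insert_eq_cons, ← Multiset.singleton_add] at hpair
              calc ({i} : Multiset ℕ) + (({i - 1} : Multiset ℕ) + r) = {i - 1} + {i} + r := by abel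
                _ = {i} + {i + 1} + q := hpair
                _ = {i} + ({i + 1} + q) := by abel
            exact add_left_cancel this
          obtain ⟨p, hr', hq'⟩ := common h' (by intro x hx; simp at hx; subst hx; simp)
          have h5 := L_shift hi p
          have h6 : t = {i - 1} + ({i + 2} + p) := by
            rw [ht', hq']; abel
          have h7 := L_step hst
          rw [hr'] at h7 hL ⊢
          rw [h6] at hL
          omega
      · have hj' : j = i := by omega
        subst hj'
        have : r = q := add_left_cancel hpair
        subst this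
        rw [hL, ht']

/-! ### The priority game -/

lemma pstep_step {s t : Multiset ℕ} (h : PStep s t) : Step s t := by
  cases h with
  | ones r => exact Step.ones r
  | split2 r h => exact Step.split2 r
  | split i hi r h => exact Step.split i hi r
  | merge i hi r h h' => exact Step.merge i hi r

lemma step_zero {s t : Multiset ℕ} (h : Step s t) (h0 : 0 ∉ s) : 0 ∉ t := by
  cases h with
  | ones r => simp at h0 ⊢; exact h0
  | split2 r => simp at h0 ⊢; exact h0
  | split i hi r => simp at h0 ⊢; refine ⟨by omega, h0.2⟩
  | merge i hi r => simp at h0 ⊢; exact h0.2.2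

lemma pstep_L {s t : Multiset ℕ} (h0 : 0 ∉ s) (h : PStep s t) : L s = L t + 1 := by
  cases h with
  | ones r =>
    have := L_split (i := 1) (by omega) r
    simpa [out] using this
  | split2 r h =>
    have := L_split (i := 2) (by omega) r
    simpa [out] using this
  | split i hi r h =>
    have := L_split (i := i) (by omega) r
    unfold out at this
    rw [if_neg (by omega), if_neg (by omega)] at this
    exact this
  | merge i hi r h h' =>
    have e : ({i - 1, i} : Multiset ℕ) + r = {i - 1} + ({i} + r) := by
      simp only [Multiset.insert_eq_cons, ← Multiset.singleton_add]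
      abel
    rw [e] at h h' h0 ⊢
    apply mergeFirst i hi _ r rfl
    refine ⟨?_, h'⟩
    rw [Multiset.nodup_iff_count_le_one]
    intro a
    rcases Nat.eq_zero_or_pos a with ha | ha
    · subst ha
      rw [Multiset.count_eq_zero_of_notMem h0]
      omega
    · exact h a ha

lemma pplay_L {k : ℕ} {s t : Multiset ℕ} (h : Play PStep k s t) (h0 : 0 ∉ s) : L s = L t + k := by
  induction h with
  | nil s => rfl
  | cons k s t u h h' ih =>
    have h1 := pstep_L h0 h
    have h2 := ih (step_zero (pstep_step h) h0)
    omega

lemma exists_of_count {s : Multiset ℕ} {i : ℕ} (h : 2 ≤ Multiset.count i s) :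
    ∃ r, s = {i, i} + r := by
  have h1 : Multiset.replicate 2 i ≤ s := Multiset.le_count_iff_replicate_le.1 h
  obtain ⟨r, hr⟩ := Multiset.le_iff_exists_add.1 h1
  exact ⟨r, hr⟩

lemma exists_pstep {s : Multiset ℕ} (h0 : 0 ∉ s) (h : ¬ Terminal s) : ∃ t, PStep s t := by
  classical
  by_cases hc : ∃ i, 2 ≤ Multiset.count i s
  · have hmin := Nat.find_spec hc
    have hlt : ∀ j, j < Nat.find hc → Multiset.count j s ≤ 1 := by
      intro j hj
      have := Nat.find_min hc hj
      omega
    set i := Nat.find hc with hi
    obtain ⟨r, hr⟩ := exists_of_count hmin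
    have hi0 : i ≠ 0 := by
      intro h
      apply h0
      rw [← h]
      exact Multiset.count_pos.1 (by omega)
    rw [hr] at hlt ⊢
    rcases Nat.lt_or_ge i 3 with h3 | h3
    · rcases Nat.lt_or_ge i 2 with h2 | h2
      · have : i = 1 := by omega
        rw [this]
        exact ⟨_, PStep.ones r⟩
      · have : i = 2 := by omega
        rw [this] at hlt ⊢
        exact ⟨_, PStep.split2 r (hlt 1 (by omega))⟩
    · exact ⟨_, PStep.split i h3 r (fun j _ hj => hlt j hj)⟩
  · have hc' : ∀ j, Multiset.count j s ≤ 1 := by
      intro j
      by_contra hj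
      exact hc ⟨j, by omega⟩
    have hex : ∃ i, 2 ≤ i ∧ i - 1 ∈ s ∧ i ∈ s := by
      simp only [Terminal, not_forall, not_not] at h
      obtain ⟨t, ht⟩ := h
      rcases step_cases ht with ⟨j, q, hj, hs', ht'⟩ | ⟨j, q, hj, hs', ht'⟩
      · exfalso
        have := hc' j
        rw [hs'] at this
        simp at this
      · exact ⟨j, hj, by rw [hs']; simp, by rw [hs']; simp⟩
    have hmin := Nat.find_spec hex
    have hlt : ∀ j, 2 ≤ j → j < Nat.find hex → ¬ (j - 1 ∈ s ∧ j ∈ s) := by
      intro j hj1 hj2 hj3
      exact Nat.find_min hex hj2 ⟨hj1, hj3⟩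
    set i := Nat.find hex with hi
    obtain ⟨h2, hm1, hm2⟩ := hmin
    have hle : ({i - 1, i} : Multiset ℕ) ≤ s := by
      rw [Multiset.insert_eq_cons, Multiset.le_iff_count]
      intro x
      rw [Multiset.count_cons, Multiset.count_singleton]
      split_ifs with h4 h5 h5
      · omega
      · subst h4
        have := Multiset.count_pos.2 hm2
        omega
      · subst h5
        have := Multiset.count_pos.2 hm1
        omega
      · omega
    obtain ⟨r, hr⟩ := Multiset.le_iff_exists_add.1 hle
    rw [hr] at hlt hc' ⊢
    exact ⟨_, PStep.merge i h2 r (fun j _ => hc' j) hlt⟩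

lemma exists_game : ∀ (m : ℕ) (s : Multiset ℕ), mu s ≤ m → 0 ∉ s →
    ∃ k t, Play PStep k s t ∧ Terminal t := by
  intro m
  induction m with
  | zero =>
    intro s hm h0
    refine ⟨0, s, Play.nil s, ?_⟩
    intro t ht
    have := mu_step ht
    omega
  | succ m ih =>
    intro s hm h0
    by_cases hT : Terminal s
    · exact ⟨0, s, Play.nil s, hT⟩
    · obtain ⟨t, ht⟩ := exists_pstep h0 hT
      have h1 := mu_step (pstep_step ht)
      obtain ⟨k, u, hu, hT'⟩ := ih t (by omega) (step_zero (pstep_step ht) h0)
      exact ⟨k + 1, u, Play.cons _ _ _ _ ht hu, hT'⟩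

lemma play_mono {k : ℕ} {s t : Multiset ℕ} (h : Play PStep k s t) : Play Step k s t := by
  induction h with
  | nil s => exact Play.nil s
  | cons k s t u h h' ih => exact Play.cons _ _ _ _ (pstep_step h) ih

/-- From every position `s` the priority game exists, all priority games from `s` have the same
length `D`, and `D` is the largest length of a game from `s`. -/
theorem main (s : Multiset ℕ) (h0 : 0 ∉ s) : ∃ D : ℕ, (∀ k, IsLength PStep s k ↔ k = D) ∧
    IsGreatest {k | IsLength Step s k} D := by
  have huniq : ∀ k, IsLength PStep s k → k = L s := by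
    rintro k ⟨t, ht, hT⟩
    have h1 := pplay_L ht h0
    rw [L_terminal hT] at h1
    omega
  obtain ⟨k, t, hk, hT⟩ := exists_game _ _ (le_refl (mu s)) h0
  have hk' := huniq k ⟨t, hk, hT⟩
  refine ⟨L s, ?_, ?_, ?_⟩
  · intro j
    constructor
    · exact huniq j
    · rintro rfl
      exact ⟨t, by rw [← hk']; exact hk, hT⟩
  · exact ⟨t, play_mono (by rw [← hk']; exact hk), hT⟩
  · rintro j ⟨u, hu, _⟩
    exact le_L hu

end Pool.Agent.ZeckGame
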